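import Pool.Agent.R893.DHG.Defs

set_option autoImplicit false

/-!
# Graphs on words
-/

namespace Pool.Agent.R893.DHG

open SimpleGraph

/-- Labelled letters: a linear order with two labels. -/
class Lab (Λ : Type*) extends LinearOrder Λ where
  up : Λ → Bool
  dn : Λ → Bool

open Lab

variable {Λ : Type*} [Lab Λ]

/-- All letters are up-letters. -/
def allUp (t : List Λ) : Prop := ∀ x ∈ t, up x = true

@[simp] theorem allUp_nil : allUp ([] : List Λ) := by simp [allUp]

@[simp] theorem allUp_cons (x : Λ) (t : List Λ) : allUp (x :: t) ↔ up x = true ∧ allUp t := by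
  simp [allUp]

@[simp] theorem allUp_append (s t : List Λ) : allUp (s ++ t) ↔ allUp s ∧ allUp t := by
  induction s with
  | nil => simp
  | cons x s ih => simp [ih, and_assoc]

/-- Adjacency of words. -/
def adjL : List Λ → List Λ → Prop
  | [], [] => False
  | [], y :: t => dn y = true ∧ allUp t
  | x :: s, [] => dn x = true ∧ allUp s
  | x :: s, y :: t =>
    (x = y ∧ adjL s t) ∨ (x < y ∧ dn x = true ∧ up y = true ∧ allUp s ∧ allUp t) ∨
      (y < x ∧ dn y = true ∧ up x = true ∧ allUp s ∧ allUp t)

theorem adjL_symm : ∀ {s t : List Λ}, adjL s t → adjL t s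
  | [], [], h => h
  | [], _ :: _, h => h
  | _ :: _, [], h => h
  | x :: s, y :: t, h => by
    rcases h with ⟨h1, h2⟩ | ⟨h1, h2, h3, h4, h5⟩ | ⟨h1, h2, h3, h4, h5⟩
    · exact Or.inl ⟨h1.symm, adjL_symm h2⟩
    · exact Or.inr (Or.inr ⟨h1, h2, h3, h5, h4⟩)
    · exact Or.inr (Or.inl ⟨h1, h2, h3, h5, h4⟩)

theorem adjL_irrefl : ∀ s : List Λ, ¬ adjL s s
  | [], h => h
  | x :: s, h => by
    rcases h with ⟨-, h2⟩ | ⟨h1, -⟩ | ⟨h1, -⟩
    · exact adjL_irrefl s h2
    · exact lt_irrefl _ h1
    · exact lt_irrefl _ h1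

theorem adjL_cons_self (x : Λ) (s t : List Λ) : adjL (x :: s) (x :: t) ↔ adjL s t := by
  simp [adjL]

/-- The graph on words. -/
def wordGraph (Λ : Type*) [Lab Λ] : SimpleGraph (List Λ) where
  Adj := adjL
  symm := ⟨fun _ _ h => adjL_symm h⟩
  loopless := ⟨adjL_irrefl⟩

theorem adjL_self_snoc (x : Λ) : ∀ m : List Λ, adjL m (m ++ [x]) ↔ dn x = true
  | [] => by simp [adjL]
  | y :: m => by
    rw [List.cons_append, adjL_cons_self]
    exact adjL_self_snoc x m

/-- The key recursion: a new last letter which is larger than the letters of its siblings. -/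
theorem adjL_snoc (x : Λ) : ∀ (m z : List Λ), z ≠ m → (∀ y z', z = m ++ y :: z' → y < x) →
    (adjL z (m ++ [x]) ↔ up x = true ∧ adjL z m)
  | [], [], h, _ => absurd rfl h
  | [], y :: t, _, h => by
    have hy : y < x := h y t rfl
    simp only [List.nil_append, adjL, allUp_nil, and_true]
    constructor
    · rintro (⟨h1, -⟩ | ⟨-, h2, h3, h4⟩ | ⟨h1, -⟩)
      · exact absurd h1 hy.ne
      · exact ⟨h3, h2, h4⟩
      · exact absurd h1 hy.not_gt
    · rintro ⟨h3, h2, h4⟩
      exact Or.inr (Or.inl ⟨hy, h2, h3, h4⟩)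
  | c :: m, [], _, _ => by
    simp only [List.cons_append, adjL, allUp_append, allUp_cons, allUp_nil, and_true]
    tauto
  | c :: m, y :: t, h, h' => by
    by_cases hyc : y = c
    · subst hyc
      rw [List.cons_append, adjL_cons_self, adjL_cons_self]
      refine adjL_snoc x m t (fun h1 => h (by rw [h1])) fun y' z' h2 => h' y' z' ?_
      rw [h2, List.cons_append]
    · simp only [List.cons_append, adjL, allUp_append, allUp_cons, allUp_nil, and_true, hyc,
        false_and, false_or]
      tauto

theorem not_lt_of_prefix : ∀ (m s : List Λ), ¬ m ++ s < m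
  | [], s => by simp
  | x :: m, s => by
    rw [List.cons_append, List.cons_lt_cons_iff]
    rintro (h | ⟨-, h⟩)
    · exact lt_irrefl _ h
    · exact not_lt_of_prefix m s h

theorem lt_snoc : ∀ (m : List Λ) (x : Λ), m < m ++ [x]
  | [], x => by simp
  | y :: m, x => by
    rw [List.cons_append, List.cons_lt_cons_iff]
    exact Or.inr ⟨rfl, lt_snoc m x⟩

theorem lt_of_lt_snoc (x y : Λ) (z' : List Λ) : ∀ m : List Λ, m ++ y :: z' < m ++ [x] → y < x
  | [], h => by
    rw [List.nil_append, List.nil_append, List.cons_lt_cons_iff] at h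
    rcases h with h | ⟨-, h⟩
    · exact h
    · exact absurd h (by simp)
  | c :: m, h => by
    rw [List.cons_append, List.cons_append, List.cons_lt_cons_iff] at h
    rcases h with h | ⟨-, h⟩
    · exact absurd h (lt_irrefl _)
    · exact lt_of_lt_snoc x y z' m h

theorem DHW_empty {V : Type*} (G : SimpleGraph V) : DHW G ∅ := by
  intro H hH a b m n hm _
  exact absurd (hH hm.left) (by simp)

/-- Prefix-closed finite sets of words are distance-hereditary. -/
theorem DHW_finset (S : Finset (List Λ)) :
    (∀ m x, m ++ [x] ∈ S → m ∈ S) → DHW (wordGraph Λ) (S : Set (List Λ)) := by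
  classical
  induction S using Finset.induction_on_max with
  | empty => intro _; simpa using DHW_empty _
  | insert a s hs ih =>
    intro hpc
    have hpc' : ∀ m x, m ++ [x] ∈ s → m ∈ s := by
      intro m x hm
      have h1 := hpc m x (Finset.mem_insert_of_mem hm)
      rcases Finset.mem_insert.1 h1 with h2 | h2
      · exact absurd ((hs _ hm).trans (h2 ▸ lt_snoc m x)) (lt_irrefl _)
      · exact h2
    have ih' := ih hpc'
    rw [Finset.coe_insert]
    rcases List.eq_nil_or_concat a with rfl | ⟨m, x, rfl⟩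
    · -- then `s` is empty
      have hs' : s = ∅ := by
        rw [Finset.eq_empty_iff_forall_notMem]
        intro z hz
        exact absurd (hs z hz) (by simp)
      subst hs'
      intro H hH a b m n hm _
      have ha : a = [] := by simpa using hH hm.left
      have hb : b = [] := by simpa using hH hm.right
      subst ha
      subst hb
      exact W.refl n hm.left
    · simp only [List.concat_eq_append] at *
      have hm : m ∈ s := by
        rcases Finset.mem_insert.1 (hpc m x (Finset.mem_insert_self _ _)) with h2 | h2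
        · exact absurd h2 (lt_snoc m x).ne
        · exact h2
      refine ih'.add (p := m) hm (fun h' => lt_irrefl _ (hs _ h')) (up x = true) ?_
      intro z hz hzm
      exact adjL_snoc x m z hzm fun y z' h2 => lt_of_lt_snoc x y z' m (h2 ▸ hs z hz)

/-- The prefix closure of a finite set. -/
theorem exists_closed (S : Finset (List Λ)) :
    ∃ T : Finset (List Λ), S ⊆ T ∧ ∀ m x, m ++ [x] ∈ T → m ∈ T := by
  classical
  refine ⟨S.biUnion fun s => s.inits.toFinset, ?_, ?_⟩
  · intro s hs
    simp only [Finset.mem_biUnion, List.mem_toFinset, List.mem_inits]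
    exact ⟨s, hs, List.prefix_rfl⟩
  · intro m x hm
    simp only [Finset.mem_biUnion, List.mem_toFinset, List.mem_inits] at hm ⊢
    obtain ⟨s, hs, h⟩ := hm
    exact ⟨s, hs, (List.prefix_append m [x]).trans h⟩

theorem W.exists_finset {V : Type*} {G : SimpleGraph V} {H : Set V} {n : ℕ} {a b : V}
    (h : W G H n a b) : ∃ T : Finset V, (T : Set V) ⊆ H ∧ W G T n a b := by
  classical
  induction n generalizing a with
  | zero => exact ⟨{a}, by simpa using h.2, h.1, by simp⟩
  | succ n ih =>
    obtain ⟨h1, x, h2, h3⟩ := h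
    obtain ⟨T, hT, hw⟩ := ih h3
    refine ⟨insert a T, ?_, by simp, x, h2, hw.sub (by simp)⟩
    rw [Finset.coe_insert]
    exact Set.insert_subset h1 hT

/-- Distance-hereditary is a property of finite subsets. -/
theorem DHW_of_finset {V : Type*} {G : SimpleGraph V}
    (h : ∀ S : Finset V, ∃ T : Finset V, S ⊆ T ∧ DHW G (T : Set V)) : DHW G Set.univ := by
  classical
  intro H _ a b m n hm hn
  obtain ⟨T1, hT1, h1⟩ := hm.exists_finset
  obtain ⟨T2, -, h2⟩ := hn.exists_finset
  obtain ⟨T, hT, hd⟩ := h (T1 ∪ T2)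
  have hT1' : (T1 : Set V) ⊆ T := fun x hx => hT (Finset.mem_union_left _ hx)
  have hT2' : (T2 : Set V) ⊆ T := fun x hx => hT (Finset.mem_union_right _ hx)
  exact (hd T1 hT1' a b m n h1 (h2.sub hT2')).sub hT1

theorem DHW_wordGraph : DHW (wordGraph Λ) Set.univ :=
  DHW_of_finset fun S => by
    obtain ⟨T, h1, h2⟩ := exists_closed S
    exact ⟨T, h1, DHW_finset T h2⟩

end Pool.Agent.R893.DHG
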