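import Pool.Agent.R893.DHG.Defs

set_option autoImplicit false

/-!
# Twins and pendant vertices in distance-hereditary graphs
-/

namespace Pool.Agent.R893.DHG

open SimpleGraph Classical

variable {V : Type*} {G : SimpleGraph V}

/-- A finite set without induced path on four vertices and with two elements contains twins. -/
theorem cograph_twins (n : ℕ) : ∀ M : Finset V, M.card = n → 2 ≤ M.card →
    (∀ a ∈ M, ∀ b ∈ M, ∀ c ∈ M, ∀ d ∈ M, G.Adj a b → G.Adj b c → G.Adj c d →
      ¬ G.Adj a c → ¬ G.Adj a d → ¬ G.Adj b d → False) →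
    ∃ x ∈ M, ∃ y ∈ M, x ≠ y ∧ ∀ z ∈ M, z ≠ x → z ≠ y → (G.Adj z x ↔ G.Adj z y) := by
  induction n using Nat.strong_induction_on with
  | _ n ih =>
  intro M hn h2 hP
  by_cases hall : ∀ x ∈ M, ∀ y ∈ M, x ≠ y → G.Adj x y
  · obtain ⟨x, hx, y, hy, hxy⟩ := Finset.one_lt_card.1 (show 1 < M.card by omega)
    exact ⟨x, hx, y, hy, hxy, fun z hz h1 h3 =>
      ⟨fun _ => hall z hz y hy h3, fun _ => hall z hz x hx h1⟩⟩
  · push Not at hall
    set P : Finset (V × V) := (M ×ˢ M).filter fun p => p.1 ≠ p.2 ∧ ¬ G.Adj p.1 p.2 with hPdef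
    set C : V → V → Finset V := fun x y => M.filter fun z => G.Adj z x ∧ G.Adj z y with hC
    have hPne : P.Nonempty := by
      obtain ⟨x, hx, y, hy, h1, h3⟩ := hall
      exact ⟨(x, y), by simp [hPdef, hx, hy, h1, h3]⟩
    obtain ⟨⟨x, y⟩, hxyP, hmax⟩ := P.exists_max_image (fun p => (C p.1 p.2).card) hPne
    have half : ∀ x y : V, x ∈ M → y ∈ M → x ≠ y → ¬ G.Adj x y →
        (∀ p ∈ P, (C p.1 p.2).card ≤ (C x y).card) →
        (∃ x ∈ M, ∃ y ∈ M, x ≠ y ∧ ∀ z ∈ M, z ≠ x → z ≠ y → (G.Adj z x ↔ G.Adj z y)) ∨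
        ∀ z ∈ M, G.Adj z x → G.Adj z y := by
      intro x y hx hy hxy hnxy hmax
      set X : Finset V := M.filter fun a => a ≠ y ∧ ¬ G.Adj a y ∧ C a y = C x y with hX
      have hxX : x ∈ X := by simp [hX, hx, hxy, hnxy]
      have hXM : X ⊆ M := Finset.filter_subset _ _
      have hclosed : ∀ a ∈ X, ∀ z ∈ M, z ∉ X → G.Adj z a → z ∈ C x y := by
        intro a ha z hz hzX hza
        obtain ⟨haM, hay, hnay, hCa⟩ := by simpa [hX] using ha
        by_cases hzy : G.Adj z y
        · rw [← hCa]
          simp [hC, hz, hza, hzy]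
        · exfalso
          apply hzX
          have hzy' : z ≠ y := fun h => hnay (h ▸ hza.symm)
          have hsub : C x y ⊆ C z y := by
            intro c hc
            have hc' : c ∈ C a y := hCa ▸ hc
            obtain ⟨hcM, hca, hcy⟩ := by simpa [hC] using hc'
            have hcz : G.Adj c z := by
              by_contra hcz
              exact hP z hz a haM c hcM y hy hza hca.symm hcy (fun h => hcz h.symm) hzy hnay
            simp [hC, hcM, hcz, hcy]
          have hle := hmax (z, y) (by simp [hPdef, hz, hy, hzy', hzy])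
          have heq := Finset.eq_of_subset_of_card_le hsub hle
          simp only [hX, Finset.mem_filter]
          exact ⟨hz, hzy', hzy, heq.symm⟩
      by_cases h2X : 2 ≤ X.card
      · left
        have hlt : X.card < n := by
          rw [← hn]
          exact Finset.card_lt_card ⟨hXM, fun h => by
            have := h hy
            simp [hX] at this⟩
        obtain ⟨x1, hx1, y1, hy1, h12, htw⟩ := ih X.card hlt X rfl h2X
          fun a ha b hb c hc d hd => hP a (hXM ha) b (hXM hb) c (hXM hc) d (hXM hd)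
        refine ⟨x1, hXM hx1, y1, hXM hy1, h12, fun z hz hz1 hz2 => ?_⟩
        by_cases hzX : z ∈ X
        · exact htw z hzX hz1 hz2
        · have hmod : ∀ a ∈ X, ∀ b ∈ X, G.Adj z a → G.Adj z b := by
            intro a ha b hb hza
            have h3 := hclosed a ha z hz hzX hza
            obtain ⟨-, -, -, hCb⟩ := by simpa [hX] using hb
            rw [← hCb] at h3
            exact (by simpa [hC] using h3 : z ∈ M ∧ G.Adj z b ∧ G.Adj z y).2.1
          exact ⟨hmod x1 hx1 y1 hy1, hmod y1 hy1 x1 hx1⟩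
      · right
        intro z hz hzx
        have hzX : z ∉ X := by
          intro hzX
          apply h2X
          have : 1 < X.card := Finset.one_lt_card.2 ⟨z, hzX, x, hxX, hzx.ne⟩
          omega
        have := hclosed x hxX z hz hzX hzx
        exact (by simpa [hC] using this : z ∈ M ∧ G.Adj z x ∧ G.Adj z y).2.2
    obtain ⟨⟨hx, hy⟩, hxy, hnxy⟩ := by simpa [hPdef] using hxyP
    rcases half x y hx hy hxy hnxy hmax with h | h
    · exact h
    · have hsw : C y x = C x y := by
        ext z
        simp only [hC, Finset.mem_filter]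
        tauto
      rcases half y x hy hx (Ne.symm hxy) (fun h' => hnxy h'.symm) (by rw [hsw]; exact hmax) with h' | h'
      · exact h'
      · exact ⟨x, hx, y, hy, hxy, fun z hz _ _ => ⟨h z hz, h' z hz⟩⟩

theorem no_P4 (hd : DHW G Set.univ) {a b c d z : V} (hab : G.Adj a b) (hbc : G.Adj b c)
    (hcd : G.Adj c d) (hac : ¬ G.Adj a c) (had : ¬ G.Adj a d) (hbd : ¬ G.Adj b d)
    (haz : G.Adj a z) (hzd : G.Adj z d) : False := by
  have hne : a ≠ d := fun h => hac (h ▸ hcd.symm)
  have hne' : a ≠ c := fun h => had (h ▸ hcd)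
  have h1 : W G {a, b, c, d} 3 a d :=
    ⟨by simp, b, Or.inr hab, by simp, c, Or.inr hbc, by simp, d, Or.inr hcd, rfl, by simp⟩
  have h2 : W G Set.univ 2 a d := ⟨trivial, z, Or.inr haz, trivial, d, Or.inr hzd, rfl, trivial⟩
  have h3 := hd _ (Set.subset_univ _) _ _ _ _ h1 h2
  obtain ⟨m, y, hm, h4, h5⟩ := h3.last hne
  have hm1 : m = 1 := by omega
  subst hm1
  have hy := h4.right
  simp only [Set.mem_insert_iff, Set.mem_singleton_iff] at hy
  rcases hy with rfl | rfl | rfl | rfl
  · exact had h5
  · exact hbd h5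
  · obtain ⟨m, y', hm', h6, h7⟩ := h4.last hne'
    have hm0 : m = 0 := by omega
    subst hm0
    obtain ⟨rfl, -⟩ := h6
    exact hac h7
  · exact G.irrefl h5

theorem no_P5 (hd : DHW G Set.univ) {a b c d e z : V} (hab : G.Adj a b) (hbc : G.Adj b c)
    (hcd : G.Adj c d) (hde : G.Adj d e) (hae : ¬ G.Adj a e) (hbe : ¬ G.Adj b e)
    (hce : ¬ G.Adj c e) (had : ¬ G.Adj a d)
    (haz : G.Adj a z) (hze : G.Adj z e) : False := by
  have hne : a ≠ e := fun h => had (h ▸ hde.symm)
  have hne' : a ≠ d := fun h => hae (h ▸ hde)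
  have h1 : W G {a, b, c, d, e} 4 a e :=
    ⟨by simp, b, Or.inr hab, by simp, c, Or.inr hbc, by simp, d, Or.inr hcd, by simp, e,
      Or.inr hde, rfl, by simp⟩
  have h2 : W G Set.univ 2 a e := ⟨trivial, z, Or.inr haz, trivial, e, Or.inr hze, rfl, trivial⟩
  have h3 := hd _ (Set.subset_univ _) _ _ _ _ h1 h2
  obtain ⟨m, y, hm, h4, h5⟩ := h3.last hne
  have hm1 : m = 1 := by omega
  subst hm1
  have hy := h4.right
  simp only [Set.mem_insert_iff, Set.mem_singleton_iff] at hy
  rcases hy with rfl | rfl | rfl | rfl | rfl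
  · exact hae h5
  · exact hbe h5
  · exact hce h5
  · obtain ⟨m, y', hm', h6, h7⟩ := h4.last hne'
    have hm0 : m = 0 := by omega
    subst hm0
    obtain ⟨rfl, -⟩ := h6
    exact had h7
  · exact G.irrefl h5

theorem W_level {r a y : V} {k m : ℕ} (h : W G Set.univ k r a) (h' : W G Set.univ m a y) :
    W G {z | G.dist r z ≤ k + m} m a y := by
  induction m generalizing a k with
  | zero => exact ⟨h'.1, dist_le_of_W h⟩
  | succ m ih =>
    obtain ⟨-, c, h1, h2⟩ := h'
    refine ⟨(dist_le_of_W h).trans (by omega), c, h1, ?_⟩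
    have hc : W G Set.univ (k + 1) r c := by
      refine h.trans (m := 1) ?_
      rcases h1 with rfl | h1
      · exact W.refl 1 trivial
      · exact W.adj trivial trivial h1
    exact (ih hc h2).sub fun z hz => (show G.dist r z ≤ k + (m + 1) from by
      have : G.dist r z ≤ k + 1 + m := hz
      omega)

theorem dist_step {r a b : V} (hr : G.Reachable r a) (h : G.Adj a b) :
    G.dist r b ≤ G.dist r a + 1 :=
  dist_le_of_W ((W_dist hr).trans (W.adj trivial trivial h))

/-- The main property of the levels. -/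
theorem F1 (hd : DHW G Set.univ) {r x v : V} {n : ℕ} (hr : G.Reachable r x)
    (hw : W G {z | z = x ∨ G.dist r z ≠ G.dist r x} n x v)
    (hv : G.dist r v = G.dist r x + 1) : G.Adj x v := by
  set H : Set V := {z | z = x ∨ G.dist r z ≠ G.dist r x} with hH
  have hrx : W G H (G.dist r x) r x := by
    by_cases h : r = x
    · subst h
      exact W.refl _ (Or.inl rfl)
    · obtain ⟨m, y, hm, h1, h2⟩ := (W_dist hr).last h
      have h3 := W_level (k := 0) (W.refl 0 (Set.mem_univ r)) h1
      have h4 : W G H m r y := h3.sub fun z hz => Or.inr (by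
        have : G.dist r z ≤ 0 + m := hz
        omega)
      rw [← hm]
      exact h4.trans (W.adj h4.right (Or.inl rfl) h2)
  have hrv : G.Reachable r v := hr.trans hw.reachable
  have h5 := hd H (Set.subset_univ _) _ _ _ _ (hrx.trans hw) (W_dist hrv)
  have hne : r ≠ v := by
    rintro rfl
    rw [SimpleGraph.dist_self] at hv
    omega
  obtain ⟨m, y, hm, h6, h7⟩ := h5.last hne
  have h8 := dist_le_of_W h6
  have h9 := dist_step h6.reachable h7
  have h10 : G.dist r y = G.dist r x := by omega
  rcases h6.right with h11 | h11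
  · exact h11 ▸ h7
  · exact absurd h10 h11

theorem F1a (hd : DHW G Set.univ) {r x u v : V} (hr : G.Reachable r x) (hxu : G.Adj x u)
    (huv : G.Adj u v) (hu : G.dist r u = G.dist r x + 1) (hv : G.dist r v = G.dist r x + 1) :
    G.Adj x v :=
  F1 hd hr (n := 2) ⟨Or.inl rfl, u, Or.inr hxu, Or.inr (by omega), v, Or.inr huv, rfl,
    Or.inr (by omega)⟩ hv

theorem F1b (hd : DHW G Set.univ) {r x u w v : V} (hr : G.Reachable r x) (hxu : G.Adj x u)
    (huw : G.Adj u w) (hwv : G.Adj w v) (hu : G.dist r u = G.dist r x + 1)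
    (hw : G.dist r w ≠ G.dist r x) (hv : G.dist r v = G.dist r x + 1) :
    G.Adj x v :=
  F1 hd hr (n := 3) ⟨Or.inl rfl, u, Or.inr hxu, Or.inr (by omega), w, Or.inr huw, Or.inr hw,
    v, Or.inr hwv, rfl, Or.inr (by omega)⟩ hv

/-- A finite connected set containing `r` and another vertex has a pendant vertex different from
`r` or twins. -/
theorem exists_prune (hd : DHW G Set.univ) {r : V} (S : Finset V) (hrS : r ∈ S)
    (hconn : ∀ v ∈ S, ∃ n, W G (S : Set V) n r v) (h2 : 2 ≤ S.card) :
    ∃ v ∈ S, ∃ p ∈ S, v ≠ p ∧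
      ((v ≠ r ∧ ∀ z ∈ S, G.Adj z v → z = p) ∨
        (∀ z ∈ S, z ≠ v → z ≠ p → (G.Adj z v ↔ G.Adj z p))) := by
  have hreach : ∀ v ∈ S, G.Reachable r v := fun v hv => (hconn v hv).choose_spec.reachable
  have hpar : ∀ v ∈ S, v ≠ r → ∃ p ∈ S, G.Adj p v ∧ G.dist r p + 1 = G.dist r v := by
    intro v hv hvr
    obtain ⟨n, hn⟩ := hconn v hv
    have h1 := hd _ (Set.subset_univ _) _ _ _ _ hn (W_dist (hreach v hv))
    obtain ⟨m, p, hm, h3, h4⟩ := h1.last hvr.symm
    have h5 := dist_le_of_W h3
    have h6 := dist_step h3.reachable h4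
    exact ⟨p, h3.right, h4, by omega⟩
  have hstep : ∀ a ∈ S, ∀ b, G.Adj a b → G.dist r b ≤ G.dist r a + 1 :=
    fun a ha b h => dist_step (hreach a ha) h
  have hzero : ∀ v ∈ S, G.dist r v = 0 → v = r := by
    intro v hv h
    by_contra hvr
    obtain ⟨p, -, -, h3⟩ := hpar v hv hvr
    omega
  obtain ⟨v0, hv0, hmax⟩ := S.exists_max_image (fun v => G.dist r v) ⟨r, hrS⟩
  set k := G.dist r v0 with hk
  have hk1 : 1 ≤ k := by
    obtain ⟨x, hx, y, hy, hxy⟩ := Finset.one_lt_card.1 (show 1 < S.card by omega)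
    by_contra hk0
    have hx0 := hmax x hx
    have hy0 := hmax y hy
    exact hxy ((hzero x hx (by omega)).trans (hzero y hy (by omega)).symm)
  have hgt : ∀ v ∈ S, 1 ≤ G.dist r v → v ≠ r := by
    rintro v - h rfl
    rw [SimpleGraph.dist_self] at h
    omega
  by_cases hcase : ∃ u ∈ S, ∃ v ∈ S, u ≠ v ∧ G.dist r u = k ∧ G.dist r v = k ∧
      ∀ z ∈ S, G.dist r z + 1 = k → (G.Adj z u ↔ G.Adj z v)
  · obtain ⟨u, hu, v, hv, huv, hku, hkv, hsame⟩ := hcase
    set M := S.filter fun z => G.dist r z = k ∧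
      ∀ y ∈ S, G.dist r y + 1 = k → (G.Adj y z ↔ G.Adj y u) with hM
    have huM : u ∈ M := by simp [hM, hu, hku]
    have hvM : v ∈ M := by
      simp only [hM, Finset.mem_filter]
      exact ⟨hv, hkv, fun y hy h => (hsame y hy h).symm⟩
    obtain ⟨q, hq, hqu, hqk⟩ := hpar u hu (hgt u hu (by omega))
    have hqM : ∀ z ∈ M, G.Adj q z := by
      intro z hz
      exact ((Finset.mem_filter.1 hz).2.2 q hq (by omega)).2 hqu
    obtain ⟨x, hx, y, hy, hxy, htw⟩ := cograph_twins M.card M rfl
      (Nat.succ_le_of_lt (Finset.one_lt_card.2 ⟨u, huM, v, hvM, huv⟩))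
      (fun a ha b _ c _ d hd' hab hbc hcd hac had hbd =>
        no_P4 hd hab hbc hcd hac had hbd (hqM a ha).symm (hqM d hd'))
    have hmod : ∀ z ∈ S, z ∉ M → ∀ a ∈ M, ∀ b ∈ M, G.Adj z a → G.Adj z b := by
      intro z hz hzM a ha b hb hza
      have haS := Finset.mem_filter.1 ha
      have hbS := Finset.mem_filter.1 hb
      have hzk := hmax z hz
      have hz1 := hstep z hz a hza
      rcases Nat.lt_or_ge (G.dist r z) k with hlt | hge
      · have : G.dist r z + 1 = k := by omega
        exact (hbS.2.2 z hz this).2 ((haS.2.2 z hz this).1 hza)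
      · exfalso
        apply hzM
        simp only [hM, Finset.mem_filter]
        refine ⟨hz, by omega, fun y hy hyk => ?_⟩
        rw [← haS.2.2 y hy hyk]
        constructor
        · intro h
          exact F1a hd (hreach y hy) h hza (by omega) (by omega)
        · intro h
          exact F1a hd (hreach y hy) h hza.symm (by omega) (by omega)
    refine ⟨x, (Finset.mem_filter.1 hx).1, y, (Finset.mem_filter.1 hy).1, hxy, Or.inr ?_⟩
    intro z hz hzx hzy
    by_cases hzM : z ∈ M
    · exact htw z hzM hzx hzy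
    · exact ⟨hmod z hz hzM x hx y hy, hmod z hz hzM y hy x hx⟩
  · push Not at hcase
    -- neighbours of vertices of the last level
    have hnb : ∀ v ∈ S, G.dist r v = k → ∀ z ∈ S, G.Adj z v → G.dist r z + 1 = k := by
      intro v hv hvk z hz hzv
      have h1 := hstep z hz v hzv
      have h3 := hmax z hz
      by_contra hne
      have hzk : G.dist r z = k := by omega
      obtain ⟨y, hy, hyk, hor⟩ := hcase z hz v hv hzv.ne hzk hvk
      rcases hor with ⟨h4, h5⟩ | ⟨h4, h5⟩
      · exact h5 (F1a hd (hreach y hy) h4 hzv (by omega) (by omega))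
      · exact h4 (F1a hd (hreach y hy) h5 hzv.symm (by omega) (by omega))
    set L := S.filter fun z => G.dist r z = k with hL
    set N : V → Finset V := fun v => S.filter fun z => G.Adj z v with hN
    obtain ⟨v, hvL, hmin⟩ := L.exists_min_image (fun v => (N v).card)
      ⟨v0, by simp [hL, hv0, hk]⟩
    obtain ⟨hv, hvk⟩ := Finset.mem_filter.1 hvL
    have hvr : v ≠ r := hgt v hv (by omega)
    obtain ⟨p, hp, hpv, hpk⟩ := hpar v hv hvr
    by_cases hone : ∀ z ∈ S, G.Adj z v → z = p
    · exact ⟨v, hv, p, hp, hpv.ne', Or.inl ⟨hvr, hone⟩⟩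
    · push Not at hone
      obtain ⟨p', hp', hp'v, hpp'⟩ := hone
      have hA : ∀ a ∈ N v, a ∈ S ∧ G.Adj a v ∧ G.dist r a + 1 = k := by
        intro a ha
        obtain ⟨haS, hav⟩ := Finset.mem_filter.1 ha
        exact ⟨haS, hav, hnb v hv hvk a haS hav⟩
      have hk2 : 2 ≤ k := by
        by_contra hlt
        have h1 := hnb v hv hvk p' hp' hp'v
        exact hpp' ((hzero p' hp' (by omega)).trans (hzero p hp (by omega)).symm)
      have hmod : ∀ z ∈ S, z ∉ N v → ∀ a ∈ N v, ∀ b ∈ N v, G.Adj z a → G.Adj z b := by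
        intro z hz hzN a ha b hb hza
        have hzv : ¬ G.Adj z v := fun h => hzN (Finset.mem_filter.2 ⟨hz, h⟩)
        obtain ⟨haS, hav, hak⟩ := hA a ha
        obtain ⟨hbS, hbv, hbk⟩ := hA b hb
        by_cases hzv' : z = v
        · subst hzv'
          exact hbv.symm
        by_contra hzb
        obtain ⟨y, hy, hya, hyk⟩ := hpar a haS (hgt a haS (by omega))
        have hyb : G.Adj y b :=
          F1b hd (hreach y hy) hya hav hbv.symm (by omega) (by omega) (by omega)
        have hyv : ¬ G.Adj v y := by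
          intro h
          have := hnb v hv hvk y hy h.symm
          omega
        have hz1 := hstep z hz a hza
        have hz2 := hstep a haS z hza.symm
        have hz3 : G.dist r z = k ∨ G.dist r z + 1 = k ∨ G.dist r z + 2 = k := by omega
        rcases hz3 with hzk | hzk | hzk
        · -- same level as `v`
          have hzL : z ∈ L := Finset.mem_filter.2 ⟨hz, hzk⟩
          have hex : ∃ c ∈ S, G.Adj c z ∧ ¬ G.Adj c v := by
            by_contra hno
            push Not at hno
            have hsub : N z ⊆ (N v).erase b := by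
              intro c hc
              obtain ⟨hcS, hcz⟩ := Finset.mem_filter.1 hc
              refine Finset.mem_erase.2 ⟨?_, Finset.mem_filter.2 ⟨hcS, hno c hcS hcz⟩⟩
              rintro rfl
              exact hzb hcz.symm
            have h1 := Finset.card_le_card hsub
            rw [Finset.card_erase_of_mem hb] at h1
            have h3 := hmin z hzL
            have h4 : 1 ≤ (N v).card := Finset.card_pos.2 ⟨b, hb⟩
            omega
          obtain ⟨c, hc, hcz, hcv⟩ := hex
          have hck := hnb z hz hzk c hc hcz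
          have hyc : G.Adj y c :=
            F1b hd (hreach y hy) hya hza.symm hcz.symm (by omega) (by omega) (by omega)
          refine no_P5 hd hbv.symm hyb.symm hyc hcz (fun h => hzv h.symm) (fun h => hzb h.symm)
            ?_ (fun h => hcv h.symm) hav.symm hza.symm
          intro h
          have := hnb z hz hzk y hy h
          omega
        · -- level of `a`
          have hyz : G.Adj y z :=
            F1a hd (hreach y hy) hya hza.symm (by omega) (by omega)
          exact no_P4 hd hbv.symm hyb.symm hyz hyv (fun h => hzv h.symm) (fun h => hzb h.symm)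
            hav.symm hza.symm
        · exact hzb (F1b hd (hreach z hz) hza hav hbv.symm (by omega) (by omega) (by omega))
      obtain ⟨x, hx, y, hy, hxy, htw⟩ := cograph_twins (N v).card (N v) rfl
        (Nat.succ_le_of_lt (Finset.one_lt_card.2 ⟨p', Finset.mem_filter.2 ⟨hp', hp'v⟩, p,
          Finset.mem_filter.2 ⟨hp, hpv⟩, hpp'⟩))
        (fun a ha b _ c _ d hd' hab hbc hcd hac had hbd =>
          no_P4 hd hab hbc hcd hac had hbd (hA a ha).2.1 (hA d hd').2.1.symm)
      refine ⟨x, (hA x hx).1, y, (hA y hy).1, hxy, Or.inr ?_⟩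
      intro z hz hzx hzy
      by_cases hzN : z ∈ N v
      · exact htw z hzN hzx hzy
      · exact ⟨hmod z hz hzN x hx y hy, hmod z hz hzN y hy x hx⟩

end Pool.Agent.R893.DHG
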