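import Pool.Agent.R893.DHG.Code
import Pool.Agent.R893.DHG.Twins

set_option autoImplicit false

/-!
# Codes of finite connected distance-hereditary graphs
-/

namespace Pool.Agent.R893.DHG

open SimpleGraph Classical

/-- Letters: a time and two labels. -/
@[ext] structure Letter (T : Type*) where
  t : T
  u : Bool
  d : Bool

/-- The lexicographic order. -/
def Letter.toL {T : Type*} (x : Letter T) : T ×ₗ (Bool ×ₗ Bool) := toLex (x.t, toLex (x.u, x.d))

theorem Letter.toL_injective {T : Type*} : Function.Injective (Letter.toL : Letter T → _) := by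
  intro x y h
  have h1 := congrArg (fun z => (ofLex z).1) h
  have h2 := congrArg (fun z => (ofLex (ofLex z).2).1) h
  have h3 := congrArg (fun z => (ofLex (ofLex z).2).2) h
  exact Letter.ext h1 h2 h3

noncomputable instance {T : Type*} [LinearOrder T] : Lab (Letter T) :=
  { LinearOrder.lift' Letter.toL Letter.toL_injective with
    up := Letter.u
    dn := Letter.d }

theorem Letter.lt_of {T : Type*} [LinearOrder T] {x y : Letter T} (h : x.t < y.t) : x < y := by
  change x.toL < y.toL
  rw [Prod.Lex.lt_iff]
  exact Or.inl h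

theorem Letter.up_eq {T : Type*} [LinearOrder T] (x : Letter T) : Lab.up x = x.u := rfl
theorem Letter.dn_eq {T : Type*} [LinearOrder T] (x : Letter T) : Lab.dn x = x.d := rfl

instance {T : Type*} [Countable T] : Countable (Letter T) :=
  Function.Injective.countable (f := fun x : Letter T => (x.t, x.u, x.d)) (by
    intro x y h
    simp only [Prod.mk.injEq] at h
    exact Letter.ext h.1 h.2.1 h.2.2)

variable {V : Type*} {G : SimpleGraph V}

theorem exists_code (hd : DHW G Set.univ) (N : V → ℕ) {r : V}
    (hr : N r = 0) (n : ℕ) : ∀ S : Finset V, S.card = n → r ∈ S → Set.InjOn N S →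
    (∀ v ∈ S, v ≠ r → ∃ p ∈ S, G.Adj p v ∧ N p < N v) →
    ∃ w : V → List (Letter ℕ), (∀ v ∈ S, (w v).length ≤ N v) ∧
      (∀ a ∈ S, ∀ b ∈ S, G.Adj a b ↔ adjL (w a) (w b)) ∧ Set.InjOn w S ∧
      (∀ v ∈ S, ∀ x ∈ w v, x.t < n) := by
  induction n with
  | zero =>
    intro S hS hrS _
    rw [Finset.card_eq_zero] at hS
    simp [hS] at hrS
  | succ n ih =>
    intro S hS hrS hN hcl
    by_cases h2 : 2 ≤ S.card
    · have hconn : ∀ m : ℕ, ∀ v ∈ S, N v = m → ∃ n, W G (S : Set V) n r v := by
        intro m
        induction m using Nat.strong_induction_on with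
        | _ m ihm =>
          intro v hv hvm
          by_cases hvr : v = r
          · exact ⟨0, hvr.symm, hrS⟩
          · obtain ⟨p, hp, hpv, hlt⟩ := hcl v hv hvr
            obtain ⟨k, hk⟩ := ihm (N p) (by omega) p hp rfl
            exact ⟨k + 1, hk.trans (W.adj hp hv hpv)⟩
      obtain ⟨v0, hv0, p0, hp0, hne0, hor⟩ :=
        exists_prune hd S hrS (fun v hv => hconn _ v hv rfl) h2
      have hnorm : ∃ v ∈ S, ∃ p ∈ S, v ≠ r ∧ N p < N v ∧ ∃ u d : Bool,
          (∀ z ∈ S, z ≠ v → z ≠ p → (G.Adj z v ↔ u = true ∧ G.Adj z p)) ∧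
          (G.Adj p v ↔ d = true) := by
        rcases hor with ⟨hvr, hpen⟩ | htw
        · obtain ⟨p', hp', hp'v, hlt⟩ := hcl v0 hv0 hvr
          have hpp := hpen p' hp' hp'v
          subst hpp
          refine ⟨v0, hv0, p', hp', hvr, hlt, false, true, ?_, by simp [hp'v]⟩
          intro z hz _ hzp
          simp only [Bool.false_eq_true, false_and, iff_false]
          exact fun h => hzp (hpen z hz h)
        · rcases lt_trichotomy (N p0) (N v0) with hlt | heq | hgt
          · refine ⟨v0, hv0, p0, hp0, ?_, hlt, true, decide (G.Adj p0 v0), ?_, by simp⟩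
            · rintro rfl; omega
            · intro z hz h1 h3
              simpa using htw z hz h1 h3
          · exact absurd (hN hp0 hv0 heq).symm hne0
          · refine ⟨p0, hp0, v0, hv0, ?_, hgt, true, decide (G.Adj v0 p0), ?_, by simp⟩
            · rintro rfl; omega
            · intro z hz h1 h3
              simpa using (htw z hz h3 h1).symm
      obtain ⟨v, hv, p, hp, hvr, hlt, u, d, hz, hpv⟩ := hnorm
      have hvp : v ≠ p := by rintro rfl; omega
      have hpS' : p ∈ S.erase v := Finset.mem_erase.2 ⟨hvp.symm, hp⟩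
      obtain ⟨w, hw1, hw2, hw3, hw4⟩ := ih (S.erase v)
        (by rw [Finset.card_erase_of_mem hv, hS]; rfl)
        (Finset.mem_erase.2 ⟨hvr.symm, hrS⟩)
        (hN.mono (by simp)) (by
          intro x hx hxr
          obtain ⟨hxv, hxS⟩ := Finset.mem_erase.1 hx
          obtain ⟨q, hq, hqx, hqlt⟩ := hcl x hxS hxr
          by_cases hqv : q = v
          · subst hqv
            have hxp : x ≠ p := by rintro rfl; omega
            exact ⟨p, hpS', ((hz x hxS hxv hxp).1 hqx.symm).2.symm, by omega⟩
          · exact ⟨q, Finset.mem_erase.2 ⟨hqv, hq⟩, hqx, hqlt⟩)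
      set x : Letter ℕ := ⟨n, u, d⟩ with hx
      have hw' : ∀ z, z ≠ v → Function.update w v (w p ++ [x]) z = w z :=
        fun z h => Function.update_of_ne h _ _
      have hwv : Function.update w v (w p ++ [x]) v = w p ++ [x] := Function.update_self _ _ _
      have hnotmem : ∀ z ∈ S, z ≠ v → x ∉ w z := by
        intro z hzS hzv hxz
        have := hw4 z (Finset.mem_erase.2 ⟨hzv, hzS⟩) x hxz
        exact lt_irrefl _ this
      have hkey : ∀ z ∈ S, z ≠ v → (G.Adj z v ↔ adjL (w z) (w p ++ [x])) := by
        intro z hzS hzv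
        have hzS' : z ∈ S.erase v := Finset.mem_erase.2 ⟨hzv, hzS⟩
        by_cases hzp : z = p
        · subst hzp
          rw [adjL_self_snoc]
          exact hpv
        · rw [adjL_snoc x (w p) (w z) (fun h => hzp (hw3 hzS' hpS' h)), hz z hzS hzv hzp,
            hw2 z hzS' p hpS']
          · exact Iff.rfl
          · intro y z' hyz
            refine Letter.lt_of (hw4 z hzS' y ?_)
            rw [hyz]
            simp
      refine ⟨Function.update w v (w p ++ [x]), ?_, ?_, ?_, ?_⟩
      · intro z hzS
        by_cases hzv : z = v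
        · subst hzv
          rw [hwv, List.length_append]
          have := hw1 p hpS'
          simp only [List.length_singleton]
          omega
        · rw [hw' z hzv]
          exact hw1 z (Finset.mem_erase.2 ⟨hzv, hzS⟩)
      · intro a ha b hb
        by_cases hav : a = v
        · by_cases hbv : b = v
          · rw [hav, hbv]
            exact ⟨fun h => absurd h (G.irrefl), fun h => absurd h (adjL_irrefl _)⟩
          · rw [hav, hwv, hw' b hbv, G.adj_comm, hkey b hb hbv]
            exact ⟨adjL_symm, adjL_symm⟩
        · by_cases hbv : b = v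
          · rw [hbv, hwv, hw' a hav, hkey a ha hav]
          · rw [hw' a hav, hw' b hbv]
            exact hw2 a (Finset.mem_erase.2 ⟨hav, ha⟩) b (Finset.mem_erase.2 ⟨hbv, hb⟩)
      · intro a ha b hb hab
        by_cases hav : a = v
        · by_cases hbv : b = v
          · rw [hav, hbv]
          · rw [hav, hwv, hw' b hbv] at hab
            exact absurd (hab ▸ (by simp : x ∈ w p ++ [x])) (hnotmem b hb hbv)
        · by_cases hbv : b = v
          · rw [hbv, hwv, hw' a hav] at hab
            exact absurd (hab ▸ (by simp : x ∈ w p ++ [x])) (hnotmem a ha hav)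
          · rw [hw' a hav, hw' b hbv] at hab
            exact hw3 (Finset.mem_erase.2 ⟨hav, ha⟩) (Finset.mem_erase.2 ⟨hbv, hb⟩) hab
      · intro z hzS y hy
        by_cases hzv : z = v
        · rw [hzv, hwv] at hy
          rcases List.mem_append.1 hy with hy | hy
          · exact (hw4 p hpS' y hy).trans (Nat.lt_succ_self n)
          · rw [List.mem_singleton] at hy
            rw [hy]
            exact Nat.lt_succ_self n
        · rw [hw' z hzv] at hy
          exact (hw4 z (Finset.mem_erase.2 ⟨hzv, hzS⟩) y hy).trans (Nat.lt_succ_self n)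
    · have hS1 : S.card = 1 := by
        have : 0 < S.card := Finset.card_pos.2 ⟨r, hrS⟩
        omega
      obtain ⟨r', hr'⟩ := Finset.card_eq_one.1 hS1
      have hSr : S = {r} := by
        rw [hr'] at hrS ⊢
        rw [Finset.mem_singleton.1 hrS]
      subst hSr
      refine ⟨fun _ => [], by simp, ?_, ?_, by simp⟩
      · intro a ha b hb
        rw [Finset.mem_singleton.1 ha, Finset.mem_singleton.1 hb]
        exact ⟨fun h => absurd h (G.irrefl), fun h => absurd h (adjL_irrefl _)⟩
      · intro a ha b hb _
        simp only [Finset.coe_singleton, Set.mem_singleton_iff] at ha hb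
        rw [ha, hb]

end Pool.Agent.R893.DHG
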