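import Mathlib

set_option autoImplicit false

/-!
# Distance-hereditary graphs: lazy walks
-/

namespace Pool.Agent.R893.DHG

open SimpleGraph

/-- A graph is distance-hereditary if for every connected induced subgraph and all its vertices
`a`, `b`, the distance of `a` and `b` in the subgraph is their distance in the graph. -/
def DistanceHereditary {V : Type*} (G : SimpleGraph V) : Prop :=
  ∀ S : Set V, (G.induce S).Connected → ∀ a b : S, (G.induce S).dist a b = G.dist a b

variable {V : Type*} {G : SimpleGraph V}

/-- There is a walk in `H` of length at most `n` from `a` to `b`. -/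
def W (G : SimpleGraph V) (H : Set V) : ℕ → V → V → Prop
  | 0, a, b => a = b ∧ a ∈ H
  | n + 1, a, b => a ∈ H ∧ ∃ c, (a = c ∨ G.Adj a c) ∧ W G H n c b

theorem W.left {H : Set V} {n : ℕ} {a b : V} (h : W G H n a b) : a ∈ H := by
  cases n with
  | zero => exact h.2
  | succ n => exact h.1

theorem W.right {H : Set V} {n : ℕ} {a b : V} (h : W G H n a b) : b ∈ H := by
  induction n generalizing a with
  | zero => exact h.1 ▸ h.2
  | succ n ih =>
    obtain ⟨c, -, h2⟩ := h.2
    exact ih h2

theorem W.refl {H : Set V} (n : ℕ) {a : V} (h : a ∈ H) : W G H n a a := by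
  induction n with
  | zero => exact ⟨rfl, h⟩
  | succ n ih => exact ⟨h, a, Or.inl rfl, ih⟩

theorem W.succ {H : Set V} {n : ℕ} {a b : V} (h : W G H n a b) : W G H (n + 1) a b :=
  ⟨h.left, a, Or.inl rfl, h⟩

theorem W.mono {H : Set V} {n m : ℕ} {a b : V} (h : W G H n a b) (hm : n ≤ m) : W G H m a b := by
  induction hm with
  | refl => exact h
  | step _ ih => exact ih.succ

theorem W.sub {H K : Set V} (hHK : H ⊆ K) {n : ℕ} {a b : V} (h : W G H n a b) : W G K n a b := by
  induction n generalizing a with
  | zero => exact ⟨h.1, hHK h.2⟩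
  | succ n ih =>
    obtain ⟨h1, c, h2, h3⟩ := h
    exact ⟨hHK h1, c, h2, ih h3⟩

theorem W.trans {H : Set V} {n m : ℕ} {a b c : V} (h : W G H n a b) (h' : W G H m b c) :
    W G H (n + m) a c := by
  induction n generalizing a with
  | zero =>
    obtain ⟨rfl, -⟩ := h
    exact h'.mono (by omega)
  | succ n ih =>
    obtain ⟨h1, x, h2, h3⟩ := h
    have := ih h3
    rw [show n + 1 + m = (n + m) + 1 by omega]
    exact ⟨h1, x, h2, this⟩

theorem W.adj {H : Set V} {a b : V} (ha : a ∈ H) (hb : b ∈ H) (h : G.Adj a b) : W G H 1 a b :=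
  ⟨ha, b, Or.inr h, rfl, hb⟩

theorem W.symm {H : Set V} {n : ℕ} {a b : V} (h : W G H n a b) : W G H n b a := by
  induction n generalizing a with
  | zero => exact ⟨h.1.symm, h.1 ▸ h.2⟩
  | succ n ih =>
    obtain ⟨h1, x, h2, h3⟩ := h
    refine (ih h3).trans (m := 1) ?_
    rcases h2 with rfl | h2
    · exact W.refl 1 h1
    · exact W.adj h3.left h1 h2.symm

/-- Transport of walks along a map which sends edges in `H` to edges or points. -/
theorem W.map {V' : Type*} {G' : SimpleGraph V'} (f : V → V') {H : Set V} {K : Set V'}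
    (hf : ∀ x ∈ H, f x ∈ K) (ha : ∀ x ∈ H, ∀ y ∈ H, G.Adj x y → f x = f y ∨ G'.Adj (f x) (f y))
    {n : ℕ} {a b : V} (h : W G H n a b) : W G' K n (f a) (f b) := by
  induction n generalizing a with
  | zero => exact ⟨by rw [h.1], hf _ h.2⟩
  | succ n ih =>
    obtain ⟨h1, x, h2, h3⟩ := h
    refine ⟨hf _ h1, f x, ?_, ih h3⟩
    rcases h2 with rfl | h2
    · exact Or.inl rfl
    · exact ha _ h1 _ h3.left h2

/-- Walks which cannot leave `K`. -/
theorem W.closed {H K : Set V} (hc : ∀ x ∈ K, ∀ y ∈ H, G.Adj x y → y ∈ K)
    {n : ℕ} {a b : V} (hK : a ∈ K) (h : W G H n a b) : W G K n a b := by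
  induction n generalizing a with
  | zero => exact ⟨h.1, hK⟩
  | succ n ih =>
    obtain ⟨h1, x, h2, h3⟩ := h
    refine ⟨hK, x, h2, ih ?_ h3⟩
    rcases h2 with rfl | h2
    · exact hK
    · exact hc _ hK _ h3.left h2

/-- The last edge. -/
theorem W.last {H : Set V} {n : ℕ} {a b : V} (h : W G H n a b) (hab : a ≠ b) :
    ∃ m y, m + 1 = n ∧ W G H m a y ∧ G.Adj y b := by
  induction n generalizing a with
  | zero => exact absurd h.1 hab
  | succ n ih =>
    obtain ⟨h1, x, h2, h3⟩ := h
    by_cases hx : x = b
    · subst hx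
      rcases h2 with rfl | h2
      · exact absurd rfl hab
      · exact ⟨n, a, rfl, W.refl n h1, h2⟩
    · obtain ⟨m, y, hm, h4, h5⟩ := ih h3 hx
      refine ⟨m + 1, y, by omega, ⟨h1, x, h2, h4⟩, h5⟩

/-- The first edge. -/
theorem W.first {H : Set V} {n : ℕ} {a b : V} (h : W G H n a b) (hab : a ≠ b) :
    ∃ m y, m + 1 = n ∧ G.Adj a y ∧ W G H m y b := by
  obtain ⟨m, y, h1, h2, h3⟩ := h.symm.last (Ne.symm hab)
  exact ⟨m, y, h1, h3.symm, h2.symm⟩

/-- The lazy walk form of distance-hereditary, inside `S`. -/
def DHW (G : SimpleGraph V) (S : Set V) : Prop :=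
  ∀ H : Set V, H ⊆ S → ∀ a b : V, ∀ m n : ℕ, W G H m a b → W G S n a b → W G H n a b

theorem W.of_walk {H : Set V} {a b : V} (p : G.Walk a b) (hp : ∀ x ∈ p.support, x ∈ H) :
    W G H p.length a b := by
  induction p with
  | nil => exact ⟨rfl, hp _ (by simp)⟩
  | cons h p ih =>
    refine ⟨hp _ (by simp), _, Or.inr h, ih fun x hx => hp _ ?_⟩
    simp [hx]

theorem W.exists_walk {H : Set V} {n : ℕ} {a b : V} (h : W G H n a b) :
    ∃ p : G.Walk a b, p.length ≤ n ∧ ∀ x ∈ p.support, x ∈ H := by
  induction n generalizing a with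
  | zero =>
    obtain ⟨rfl, h⟩ := h
    exact ⟨Walk.nil, by simp, by simpa using h⟩
  | succ n ih =>
    obtain ⟨h1, x, h2, h3⟩ := h
    obtain ⟨p, hp, hp'⟩ := ih h3
    rcases h2 with rfl | h2
    · exact ⟨p, by omega, hp'⟩
    · refine ⟨Walk.cons h2 p, by simpa using hp, fun z hz => ?_⟩
      rw [Walk.support_cons, List.mem_cons] at hz
      rcases hz with rfl | hz
      · exact h1
      · exact hp' z hz

theorem W.to_induce {H : Set V} {n : ℕ} {a b : V} (h : W G H n a b) :
    W (G.induce H) Set.univ n ⟨a, h.left⟩ ⟨b, h.right⟩ := by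
  induction n generalizing a with
  | zero =>
    obtain ⟨rfl, h⟩ := h
    exact ⟨rfl, trivial⟩
  | succ n ih =>
    obtain ⟨h1, x, h2, h3⟩ := h
    refine ⟨trivial, ⟨x, h3.left⟩, ?_, ih h3⟩
    rcases h2 with rfl | h2
    · exact Or.inl rfl
    · exact Or.inr h2

theorem W.of_induce {H : Set V} {n : ℕ} {a b : H} (h : W (G.induce H) Set.univ n a b) :
    W G H n a b :=
  h.map (fun x : H => (x : V)) (fun x _ => x.2) (fun _ _ _ _ h => Or.inr h)

theorem dist_le_of_W {n : ℕ} {a b : V} {H : Set V} (h : W G H n a b) : G.dist a b ≤ n := by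
  obtain ⟨p, hp, -⟩ := h.exists_walk
  exact (G.dist_le p).trans hp

theorem W.reachable {n : ℕ} {a b : V} {H : Set V} (h : W G H n a b) : G.Reachable a b := by
  obtain ⟨p, -⟩ := h.exists_walk
  exact ⟨p⟩

theorem W_dist {a b : V} (h : G.Reachable a b) : W G Set.univ (G.dist a b) a b := by
  obtain ⟨p, hp⟩ := h.exists_walk_length_eq_dist
  rw [← hp]
  exact W.of_walk p fun _ _ => trivial

theorem DHW_of (h : DistanceHereditary G) : DHW G Set.univ := by
  intro H _ a b m n hm hn
  obtain ⟨p, -, hp⟩ := hm.exists_walk
  have hc : (G.induce {x | x ∈ p.support}).Connected := p.connected_induce_support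
  have h1 := h _ hc ⟨a, p.start_mem_support⟩ ⟨b, p.end_mem_support⟩
  have h2 := W_dist (hc.preconnected ⟨a, p.start_mem_support⟩ ⟨b, p.end_mem_support⟩)
  rw [h1] at h2
  have h3 : W G {x | x ∈ p.support} (G.dist a b) a b := W.of_induce h2
  exact (h3.sub hp).mono (dist_le_of_W hn)

theorem of_DHW (h : DHW G Set.univ) : DistanceHereditary G := by
  intro S hS a b
  have h1 := W.of_induce (W_dist (hS.preconnected a b))
  have h2 := h S (Set.subset_univ _) a b _ _ h1 (W_dist h1.reachable)
  exact le_antisymm (dist_le_of_W h2.to_induce) (dist_le_of_W h1)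

/-- If for each `a`, `b` and walks there is a distance-hereditary set containing them. -/
theorem DHW.sub {S T : Set V} (h : DHW G T) (hST : S ⊆ T) : DHW G S :=
  fun H hH a b m n hm hn => h H (hH.trans hST) a b m n hm (hn.sub hST)

/-- Adding a vertex `v` which is a twin of `p ∈ S` (`u`) or adjacent at most to `p`
(not `u`). -/
theorem DHW.add {S : Set V} (h : DHW G S) {v p : V} (hp : p ∈ S) (hv : v ∉ S) (u : Prop)
    (hz : ∀ z ∈ S, z ≠ p → (G.Adj z v ↔ u ∧ G.Adj z p)) : DHW G (insert v S) := by
  classical
  intro H hH a b m n hm hn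
  by_cases hab : a = b
  · subst hab
    exact W.refl n hm.left
  have hvp : v ≠ p := fun h' => hv (h' ▸ hp)
  -- the retraction
  set σ : V → V := fun z => if z = v then p else z with hσ
  have hσS : ∀ x ∈ insert v S, σ x ∈ S := by
    intro x hx
    by_cases hxv : x = v
    · simp only [hσ, hxv, if_true]; exact hp
    · simp only [hσ, hxv, if_false]
      exact (Set.mem_insert_iff.1 hx).resolve_left hxv
  have hσa : ∀ x ∈ insert v S, ∀ y ∈ insert v S, G.Adj x y → σ x = σ y ∨ G.Adj (σ x) (σ y) := by
    intro x hx y hy hxy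
    by_cases hxv : x = v
    · subst hxv
      have hyx : y ≠ x := hxy.ne'
      have hyS : y ∈ S := (Set.mem_insert_iff.1 hy).resolve_left hyx
      by_cases hyp : y = p
      · left; simp [hσ, hyp]
      · right
        simp only [hσ, if_true, hyx, if_false]
        exact ((hz y hyS hyp).1 hxy.symm).2.symm
    · have hxS : x ∈ S := (Set.mem_insert_iff.1 hx).resolve_left hxv
      by_cases hyv : y = v
      · subst hyv
        by_cases hxp : x = p
        · left; simp [hσ, hxp]
        · right
          simp only [hσ, if_true, hxv, if_false]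
          exact ((hz x hxS hxp).1 hxy).2
      · right
        simp only [hσ, hxv, hyv, if_false]
        exact hxy
  have hmH : ∀ {x y : V} {m : ℕ}, W G H m x y → W G (σ '' H) m (σ x) (σ y) := fun h' =>
    h'.map (K := σ '' H) σ (fun x hx => Set.mem_image_of_mem σ hx)
      fun x hx y hy => hσa x (hH hx) y (hH hy)
  have hsub : σ '' H ⊆ S := by
    rintro _ ⟨x, hx, rfl⟩
    exact hσS x (hH hx)
  have hσn : ∀ x, x ≠ v → σ x = x := fun x hx => by simp [hσ, hx]
  have hσv : σ v = p := by simp [hσ]
  by_cases hu : u
  · -- twins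
    by_cases hcase : v ∈ H ∧ a ≠ p ∧ b ≠ p
    · obtain ⟨hvH, hap, hbp⟩ := hcase
      set τ : V → V := fun z => if z = p then v else z with hτ
      have h1 := h _ hsub _ _ _ _ (hmH hm) (hn.map σ hσS hσa)
      have h2 : W G H n (τ (σ a)) (τ (σ b)) := by
        refine h1.map τ ?_ ?_
        · rintro _ ⟨x, hx, rfl⟩
          by_cases hxv : x = v
          · rw [hxv, hσv]; simp only [hτ, if_true]; exact hvH
          · rw [hσn x hxv]
            by_cases hxp : x = p
            · simp only [hτ, hxp, if_true]; exact hvH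
            · simp only [hτ, hxp, if_false]; exact hx
        · intro x hx y hy hxy
          have hxS := hsub hx
          have hyS := hsub hy
          by_cases hxp : x = p
          · subst hxp
            have hyx : y ≠ x := hxy.ne'
            right
            simp only [hτ, if_true, hyx, if_false]
            exact ((hz y hyS hyx).2 ⟨hu, hxy.symm⟩).symm
          · by_cases hyp : y = p
            · subst hyp
              right
              simp only [hτ, if_true, hxp, if_false]
              exact (hz x hxS hxp).2 ⟨hu, hxy⟩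
            · right
              simp only [hτ, hxp, hyp, if_false]
              exact hxy
      have hfix : ∀ x, x ≠ p → τ (σ x) = x := by
        intro x hx
        by_cases hxv : x = v
        · rw [hxv, hσv]; simp [hτ]
        · rw [hσn x hxv]; simp [hτ, hx]
      rwa [hfix a hap, hfix b hbp] at h2
    · by_cases hav : a ≠ v ∧ b ≠ v
      · -- no endpoint is `v`
        have h1 := h _ hsub _ _ _ _ (hmH hm) (hn.map σ hσS hσa)
        rw [hσn a hav.1, hσn b hav.2] at h1
        refine h1.sub ?_
        rintro _ ⟨x, hx, rfl⟩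
        by_cases hxv : x = v
        · rw [hxv, hσv]
          rw [hxv] at hx
          by_contra hpH
          exact hcase ⟨hx, fun h' => hpH (h' ▸ hm.left), fun h' => hpH (h' ▸ hm.right)⟩
        · rw [hσn x hxv]; exact hx
      · -- endpoints are `v` and `p`
        have key : ∀ a b : V, a = v → b = p → W G H m a b → W G (insert v S) n a b →
            W G H n a b := by
          rintro a b rfl rfl hm hn
          obtain ⟨k, y, hk, hay, hk'⟩ := hn.first hvp
          by_cases hadj : G.Adj a b
          · exact (W.adj hm.left hm.right hadj).mono (by omega)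
          · have hyb : y ≠ b := fun h' => hadj (h' ▸ hay)
            obtain ⟨k2, y2, hk2, -, -⟩ := hk'.first hyb
            obtain ⟨l, z, hl, haz, hl'⟩ := hm.first hvp
            have hzb : z ≠ b := fun h' => hadj (h' ▸ haz)
            have hzS : z ∈ S :=
              (Set.mem_insert_iff.1 (hH hl'.left)).resolve_left haz.ne'
            have hzb' := ((hz z hzS hzb).1 haz.symm).2
            exact ((W.adj hm.left hl'.left haz).trans (W.adj hl'.left hm.right hzb')).mono (by omega)
        by_cases hav' : a = v
        · have hbp : b = p := by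
            by_contra hbp
            exact hcase ⟨hav' ▸ hm.left, fun h' => hvp (hav'.symm.trans h'), hbp⟩
          exact key a b hav' hbp hm hn
        · have hbv : b = v := by
            by_contra hbv
            exact hav ⟨hav', hbv⟩
          have hap : a = p := by
            by_contra hap
            exact hcase ⟨hbv ▸ hm.right, hap, fun h' => hvp (hbv.symm.trans h')⟩
          exact (key b a hbv hap hm.symm hn.symm).symm
  · -- `v` has at most the neighbour `p`
    have hnb : ∀ z ∈ insert v S, G.Adj z v → z = p := by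
      intro z hzS hzv
      by_contra hzp
      exact hu ((hz z ((Set.mem_insert_iff.1 hzS).resolve_left hzv.ne) hzp).1 hzv).1
    -- the case of endpoints different from `v`
    have main : ∀ (a b : V) (m n : ℕ), a ≠ v → b ≠ v → W G H m a b →
        W G (insert v S) n a b → W G H n a b := by
      intro a b m n hav hbv hm hn
      have hS : W G S n a b := by
        have := hn.map σ hσS hσa
        rwa [hσn a hav, hσn b hbv] at this
      by_cases hpH : p ∈ H
      · have h1 := hmH hm
        rw [hσn a hav, hσn b hbv] at h1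
        refine (h _ hsub _ _ _ _ h1 hS).sub ?_
        rintro _ ⟨x, hx, rfl⟩
        by_cases hxv : x = v
        · rw [hxv, hσv]; exact hpH
        · rw [hσn x hxv]; exact hx
      · have h1 : W G (H \ {v}) m a b := by
          refine hm.closed ?_ ⟨hm.left, hav⟩
          intro x hx y hy hxy
          refine ⟨hy, fun hyv => ?_⟩
          rw [Set.mem_singleton_iff] at hyv
          subst hyv
          exact hpH (hnb x (hH hx.1) hxy ▸ hx.1)
        refine (h (H \ {v}) ?_ _ _ _ _ h1 hS).sub Set.sdiff_subset
        intro x hx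
        exact (Set.mem_insert_iff.1 (hH hx.1)).resolve_left hx.2
    have key : ∀ a b : V, a = v → b ≠ v → W G H m a b → W G (insert v S) n a b →
        W G H n a b := by
      rintro a b rfl hbv hm hn
      obtain ⟨l, z, hl, haz, hl'⟩ := hm.first hbv.symm
      obtain ⟨k, y, hk, hay, hk'⟩ := hn.first hbv.symm
      have hzp := hnb z (hH hl'.left) haz.symm
      have hyp := hnb y hk'.left hay.symm
      subst hzp
      subst hyp
      have := main y b l k hvp.symm hbv hl' hk'
      rw [← hk]
      exact ⟨hm.left, y, Or.inr hay, this⟩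
    by_cases hav : a = v
    · have hbv : b ≠ v := fun h' => hab (hav.trans h'.symm)
      exact key a b hav hbv hm hn
    · by_cases hbv : b = v
      · exact (key b a hbv hav hm.symm hn.symm).symm
      · exact main a b m n hav hbv hm hn

end Pool.Agent.R893.DHG
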