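import Pool.Agent.R893.DHG.Coding

set_option autoImplicit false

/-!
# Codes of countable distance-hereditary graphs
-/

namespace Pool.Agent.R893.DHG

open SimpleGraph Classical Filter

variable {V : Type*} {G : SimpleGraph V}

section numbering

/-- Cost of a walk: all vertices but the last one are counted. -/
def cost (e : V → ℕ) : ∀ {u v : V}, G.Walk u v → ℕ
  | _, _, Walk.nil => 0
  | u, _, Walk.cons _ q => e u + 1 + cost e q

/-- Minimal cost of a walk to `r`. -/
noncomputable def mcost (G : SimpleGraph V) (e : V → ℕ) (r v : V) : ℕ :=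
  sInf (Set.range fun p : G.Walk v r => cost e p)

theorem mcost_le (e : V → ℕ) {r v : V} (p : G.Walk v r) : mcost G e r v ≤ cost e p :=
  Nat.sInf_le ⟨p, rfl⟩

theorem mcost_self (e : V → ℕ) (r : V) : mcost G e r r = 0 :=
  Nat.le_zero.1 (mcost_le (G := G) e (Walk.nil : G.Walk r r))

theorem exists_parent (e : V → ℕ) {r v : V} (h : G.Reachable v r) (hne : v ≠ r) :
    ∃ x, G.Adj x v ∧ G.Reachable x r ∧ mcost G e r x + e v + 1 ≤ mcost G e r v := by
  obtain ⟨p, hp⟩ : mcost G e r v ∈ Set.range fun p : G.Walk v r => cost e p :=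
    Nat.sInf_mem ⟨_, ⟨h.some, rfl⟩⟩
  simp only at hp
  cases p with
  | nil => exact absurd rfl hne
  | @cons _ x _ h' q =>
    refine ⟨x, h'.symm, ⟨q⟩, ?_⟩
    rw [← hp]
    simp only [cost]
    have := mcost_le e q
    omega

/-- The numbering. -/
noncomputable def num (G : SimpleGraph V) (e : V → ℕ) (r v : V) : ℕ :=
  mcost G e r v ^ 2 + e v

theorem num_self {e : V → ℕ} {r : V} (hr : e r = 0) : num G e r r = 0 := by
  simp [num, mcost_self, hr]

theorem e_le {e : V → ℕ} {r v : V} (hr : e r = 0) (h : G.Reachable v r) :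
    e v ≤ mcost G e r v := by
  by_cases hv : v = r
  · rw [hv, hr]; exact Nat.zero_le _
  · obtain ⟨x, -, -, h1⟩ := exists_parent e h hv
    omega

theorem num_lt {e : V → ℕ} {r a b : V} (hr : e r = 0) (ha : G.Reachable a r)
    (h : mcost G e r a < mcost G e r b) : num G e r a < num G e r b := by
  have h1 := e_le hr ha
  unfold num
  nlinarith

theorem num_inj {e : V → ℕ} (he : Function.Injective e) {r a b : V} (hr : e r = 0)
    (ha : G.Reachable a r) (hb : G.Reachable b r) (h : num G e r a = num G e r b) : a = b := by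
  rcases lt_trichotomy (mcost G e r a) (mcost G e r b) with h1 | h1 | h1
  · exact absurd h (num_lt hr ha h1).ne
  · unfold num at h
    rw [h1] at h
    exact he (by omega)
  · exact absurd h (num_lt hr hb h1).ne'

end numbering

theorem ultra_const {α β : Type*} (U : Ultrafilter α) (f : α → β) (F : Set β) (hF : F.Finite)
    (h : ∀ᶠ n in (U : Filter α), f n ∈ F) : ∃ c, ∀ᶠ n in (U : Filter α), f n = c := by
  have h1 : (⋃ c ∈ F, {n | f n = c}) ∈ U := by
    filter_upwards [h] with n hn
    simp [hn]
  obtain ⟨c, -, hc⟩ := (Ultrafilter.finite_biUnion_mem_iff hF).1 h1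
  exact ⟨c, hc⟩

/-- Same labels. -/
def SameLab {Λ Λ' : Type*} [Lab Λ] [Lab Λ'] (x : Λ) (x' : Λ') : Prop :=
  Lab.up x = Lab.up x' ∧ Lab.dn x = Lab.dn x'

/-- Same comparison. -/
def SameCmp {Λ Λ' : Type*} [Lab Λ] [Lab Λ'] (x y : Λ) (x' y' : Λ') : Prop :=
  (x < y ↔ x' < y') ∧ (x = y ↔ x' = y') ∧ (y < x ↔ y' < x')

theorem allUp_transfer {Λ Λ' : Type*} [Lab Λ] [Lab Λ'] {s : List Λ} {s' : List Λ'}
    (h : List.Forall₂ SameLab s s') : allUp s ↔ allUp s' := by
  induction h with
  | nil => simp
  | cons h1 _ ih => simp [h1.1, ih]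

theorem adjL_transfer {Λ Λ' : Type*} [Lab Λ] [Lab Λ'] {s : List Λ} {s' : List Λ'}
    (hs : List.Forall₂ SameLab s s') : ∀ {t : List Λ} {t' : List Λ'},
    List.Forall₂ SameLab t t' →
    (∀ (i : ℕ) (x y : Λ) (x' y' : Λ'), s[i]? = some x → t[i]? = some y → s'[i]? = some x' → t'[i]? = some y' →
      SameCmp x y x' y') → (adjL s t ↔ adjL s' t') := by
  induction hs with
  | nil =>
    intro t t' ht _
    cases ht with
    | nil => simp [adjL]
    | cons h1 h2 => simp [adjL, h1.2, allUp_transfer h2]
  | @cons x x' s s' h1 h2 ih =>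
    intro t t' ht hc
    cases ht with
    | nil => simp [adjL, h1.2, allUp_transfer h2]
    | @cons y y' t t' h3 h4 =>
      obtain ⟨c1, c2, c3⟩ := hc 0 x y x' y' rfl rfl rfl rfl
      have h5 := ih h4 fun i a b a' b' e1 e2 e3 e4 =>
        hc (i + 1) a b a' b' (by simpa using e1) (by simpa using e2) (by simpa using e3)
          (by simpa using e4)
      simp only [adjL, c1, c2, c3, h5, h1.1, h1.2, h3.1, h3.2, allUp_transfer h2,
        allUp_transfer h4]

instance {T : Type*} [Inhabited T] : Inhabited (Letter T) := ⟨⟨default, false, false⟩⟩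

theorem list_eq {α : Type*} [Inhabited α] (s : List α) {k : ℕ} (h : s.length = k) :
    s = (List.range k).map fun i => s.getD i default := by
  subst h
  apply List.ext_getElem?
  intro i
  by_cases hi : i < s.length
  · simp [hi]
  · simp [hi]

/-- The connected case. -/
theorem exists_words [Countable V] (hd : DHW G Set.univ) (r : V) :
    ∃ w : V → List (Letter ℚ), ∀ a b, G.Reachable a r → G.Reachable b r →
      (G.Adj a b ↔ adjL (w a) (w b)) ∧ (w a = w b → a = b) := by
  obtain ⟨e0, he0⟩ := exists_injective_nat V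
  set e : V → ℕ := fun v => if v = r then 0 else e0 v + 1 with hedef
  have her : e r = 0 := by simp [hedef]
  have he : Function.Injective e := by
    intro a b hab
    simp only [hedef] at hab
    split_ifs at hab with h1 h2 h2
    · rw [h1, h2]
    · exact he0 (by omega)
  set N := num G e r with hN
  -- the finite sets
  have hfin : ∀ n : ℕ, {v | G.Reachable v r ∧ N v ≤ n}.Finite := by
    intro n
    refine Set.Finite.of_finite_image (f := N) ((Set.finite_Iic n).subset ?_) ?_
    · rintro _ ⟨v, hv, rfl⟩
      exact hv.2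
    · intro a ha b hb hab
      exact num_inj he her ha.1 hb.1 hab
  have hcode : ∀ n : ℕ, ∃ w : V → List (Letter ℕ),
      (∀ v, G.Reachable v r → N v ≤ n → (w v).length ≤ N v) ∧
      (∀ a b, G.Reachable a r → N a ≤ n → G.Reachable b r → N b ≤ n →
        (G.Adj a b ↔ adjL (w a) (w b)) ∧ (w a = w b → a = b)) := by
    intro n
    obtain ⟨w, hw1, hw2, hw3, -⟩ := exists_code hd N (num_self her) _ (hfin n).toFinset rfl
      (by simp [hN, num_self her]) (by
        intro a ha b hb hab
        simp only [Set.Finite.coe_toFinset, Set.mem_ofPred_eq] at ha hb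
        exact num_inj he her ha.1 hb.1 hab) (by
        intro v hv hvr
        simp only [Set.Finite.mem_toFinset, Set.mem_ofPred_eq] at hv ⊢
        obtain ⟨x, hxv, hxr, hx⟩ := exists_parent e hv.1 hvr
        have hlt : N x < N v := num_lt her hxr (by omega)
        exact ⟨x, ⟨hxr, by omega⟩, hxv, hlt⟩)
    refine ⟨w, fun v hv hn => hw1 v (by simp [hv, hn]), fun a b ha hna hb hnb => ⟨?_, ?_⟩⟩
    · exact hw2 a (by simp [ha, hna]) b (by simp [hb, hnb])
    · exact hw3 (by simp [ha, hna]) (by simp [hb, hnb])
  choose w hw1 hw2 using hcode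
  set U := hyperfilter ℕ with hU
  have hlarge : ∀ k : ℕ, ∀ᶠ n in (U : Filter ℕ), k ≤ n := by
    intro k
    have h1 : ∀ᶠ n in (cofinite : Filter ℕ), k ≤ n := by
      rw [Nat.cofinite_eq_atTop]
      exact eventually_ge_atTop k
    exact hyperfilter_le_cofinite h1
  -- lengths
  have hlen : ∀ v, ∃ l : ℕ, G.Reachable v r → ∀ᶠ n in (U : Filter ℕ), (w n v).length = l := by
    intro v
    by_cases hv : G.Reachable v r
    · obtain ⟨l, hl⟩ := ultra_const U (fun n => (w n v).length) _ (Set.finite_Iic (N v)) (by
        filter_upwards [hlarge (N v)] with n hn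
        exact hw1 n v hv hn)
      exact ⟨l, fun _ => hl⟩
    · exact ⟨0, fun h => absurd h hv⟩
  choose l hl using hlen
  -- labels
  set L : ℕ → V → ℕ → Letter ℕ := fun n v i => (w n v).getD i default with hL
  have hlab : ∀ v i, ∃ c : Bool × Bool, ∀ᶠ n in (U : Filter ℕ), ((L n v i).u, (L n v i).d) = c :=
    fun v i => ultra_const U _ Set.univ Set.finite_univ (Eventually.of_forall fun _ => trivial)
  choose c hc using hlab
  -- times
  set g : V → ℕ → Germ (U : Filter ℕ) (Letter ℕ) := fun v i => ((fun n => L n v i : ℕ → Letter ℕ) :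
    Germ (U : Filter ℕ) (Letter ℕ)) with hg
  set Rg : Set (Germ (U : Filter ℕ) (Letter ℕ)) := Set.range fun p : V × ℕ => g p.1 p.2 with hRg
  have : Countable Rg := (Set.countable_range _).to_subtype
  obtain ⟨f⟩ := Order.embedding_from_countable_to_dense Rg ℚ
  set F : V → ℕ → Letter ℚ := fun v i => ⟨f ⟨g v i, ⟨(v, i), rfl⟩⟩, (c v i).1, (c v i).2⟩ with hF
  have hcmp : ∀ a b i, ∀ᶠ n in (U : Filter ℕ), SameCmp (F a i) (F b i) (L n a i) (L n b i) := by
    intro a b i
    rcases lt_trichotomy (g a i) (g b i) with h | h | h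
    · have h1 : F a i < F b i := Letter.lt_of (f.lt_iff_lt.2 h)
      filter_upwards [Germ.coe_lt.1 h] with n hn
      exact ⟨iff_of_true h1 hn, iff_of_false h1.ne hn.ne, iff_of_false h1.not_gt hn.not_gt⟩
    · have h0 := Germ.coe_eq.1 h
      have hcc : c a i = c b i := by
        obtain ⟨n, h1, h2, h3⟩ := (h0.and ((hc a i).and (hc b i))).exists
        have h1' : L n a i = L n b i := h1
        rw [← h2, ← h3, h1']
      have h1 : F a i = F b i := by
        simp only [hF, hcc]
        congr 2
        exact Subtype.ext h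
      filter_upwards [h0] with n hn
      have hn' : L n a i = L n b i := hn
      rw [h1, hn']
      exact ⟨iff_of_false (lt_irrefl _) (lt_irrefl _), iff_of_true rfl rfl,
        iff_of_false (lt_irrefl _) (lt_irrefl _)⟩
    · have h1 : F b i < F a i := Letter.lt_of (f.lt_iff_lt.2 h)
      filter_upwards [Germ.coe_lt.1 h] with n hn
      exact ⟨iff_of_false h1.not_gt hn.not_gt, iff_of_false h1.ne' hn.ne', iff_of_true h1 hn⟩
  refine ⟨fun v => (List.range (l v)).map (F v), ?_⟩
  intro a b ha hb
  have hev : ∀ᶠ n in (U : Filter ℕ), (N a ≤ n ∧ N b ≤ n) ∧ ((w n a).length = l a ∧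
      (w n b).length = l b) ∧ (∀ i ∈ Finset.range (l a), ((L n a i).u, (L n a i).d) = c a i) ∧
      (∀ i ∈ Finset.range (l b), ((L n b i).u, (L n b i).d) = c b i) ∧
      (∀ i ∈ Finset.range (l a), SameCmp (F a i) (F b i) (L n a i) (L n b i)) := by
    refine ((hlarge _).and (hlarge _)).and (((hl a ha).and (hl b hb)).and ?_)
    refine ((eventually_all_finset _).2 fun i _ => hc a i).and ?_
    exact ((eventually_all_finset _).2 fun i _ => hc b i).and
      ((eventually_all_finset _).2 fun i _ => hcmp a b i)
  obtain ⟨n, ⟨hna, hnb⟩, ⟨hla, hlb⟩, hca, hcb, hcab⟩ := hev.exists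
  obtain ⟨h1, h2⟩ := hw2 n a b ha hna hb hnb
  have ea : w n a = (List.range (l a)).map (L n a) := list_eq _ hla
  have eb : w n b = (List.range (l b)).map (L n b) := list_eq _ hlb
  have hA : List.Forall₂ SameLab ((List.range (l a)).map (F a)) ((List.range (l a)).map (L n a)) := by
    rw [List.forall₂_map_left_iff, List.forall₂_map_right_iff, List.forall₂_same]
    intro i hi
    have := hca i (by simpa using hi)
    simp only [SameLab, Letter.up_eq, Letter.dn_eq, hF, ← this, and_self]
  have hB : List.Forall₂ SameLab ((List.range (l b)).map (F b)) ((List.range (l b)).map (L n b)) := by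
    rw [List.forall₂_map_left_iff, List.forall₂_map_right_iff, List.forall₂_same]
    intro i hi
    have := hcb i (by simpa using hi)
    simp only [SameLab, Letter.up_eq, Letter.dn_eq, hF, ← this, and_self]
  constructor
  · rw [h1, ea, eb]
    refine (adjL_transfer hA hB ?_).symm
    intro i x y x' y' e1 e2 e3 e4
    by_cases hi : i < l a
    · by_cases hi' : i < l b
      · simp only [List.getElem?_map, List.getElem?_range hi, List.getElem?_range hi',
          Option.map_some, Option.some.injEq] at e1 e2 e3 e4
        subst e1 e2 e3 e4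
        exact hcab i (by simpa using hi)
      · simp [not_lt.1 hi'] at e2
    · simp [not_lt.1 hi] at e1
  · intro hab
    apply h2
    have hll : l a = l b := by
      have := congrArg List.length hab
      simpa using this
    rw [ea, eb, ← hll]
    refine List.map_congr_left fun i hi => ?_
    have hFi : F a i = F b i := by
      have hi' : i < l a := by simpa using hi
      have := congrArg (fun s => s[i]?) hab
      simp only [List.getElem?_map, List.getElem?_range hi',
        List.getElem?_range (hll ▸ hi' : i < l b), Option.map_some, Option.some.injEq] at this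
      exact this
    exact (hcab i (by simpa using hi)).2.1.1 hFi

/-- Every countable distance-hereditary graph is an induced subgraph of the graph on words. -/
theorem exists_embedding [Countable V] (hd : DHW G Set.univ) :
    Nonempty (G ↪g wordGraph (Letter ℚ)) := by
  have : Countable G.ConnectedComponent :=
    Function.Surjective.countable (f := G.connectedComponentMk) Quot.mk_surjective
  obtain ⟨κ, hκ⟩ := exists_injective_nat G.ConnectedComponent
  have h := fun c : G.ConnectedComponent => exists_words hd c.out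
  choose w hw using h
  have hr : ∀ a, G.Reachable a (G.connectedComponentMk a).out := by
    intro a
    have : G.connectedComponentMk (G.connectedComponentMk a).out = G.connectedComponentMk a :=
      Quot.out_eq _
    exact (ConnectedComponent.exact this).symm
  set φ : V → List (Letter ℚ) := fun a =>
    ⟨(κ (G.connectedComponentMk a) : ℚ), false, false⟩ :: w (G.connectedComponentMk a) a with hφ
  have hadj : ∀ a b, G.Adj a b ↔ adjL (φ a) (φ b) := by
    intro a b
    by_cases hc : G.connectedComponentMk a = G.connectedComponentMk b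
    · simp only [hφ, hc, adjL_cons_self]
      exact (hw _ a b (hc ▸ hr a) (hr b)).1
    · refine iff_of_false (fun h => hc (ConnectedComponent.sound h.reachable)) ?_
      rintro (⟨h1, -⟩ | ⟨-, h1, -⟩ | ⟨-, h1, -⟩)
      · have := congrArg Letter.t h1
        simp only [Nat.cast_inj] at this
        exact hc (hκ this)
      · exact absurd h1 (by simp [Letter.dn_eq])
      · exact absurd h1 (by simp [Letter.dn_eq])
  refine ⟨⟨⟨φ, ?_⟩, ?_⟩⟩
  · intro a b hab
    have h1 := (List.cons.inj hab).1
    have h2 := (List.cons.inj hab).2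
    have h3 := congrArg Letter.t h1
    simp only [Nat.cast_inj] at h3
    have hc := hκ h3
    rw [hc] at h2
    exact (hw _ a b (hc ▸ hr a) (hr b)).2 h2
  · intro a b
    exact (hadj a b).symm

end Pool.Agent.R893.DHG
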