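import Pool.Agent.R893.DHG.Defs

set_option autoImplicit false

/-!
# A vertex-transitive graph containing a given distance-hereditary graph
-/

namespace Pool.Agent.R893.DHG

open SimpleGraph Classical FreeGroup

variable {V : Type*} (U : SimpleGraph V)

/-- The vertex of `a` in the copy of the graph with index `g`. -/
def C (g : FreeGroup V) (a : V) : FreeGroup V := (of a)⁻¹ * g

/-- The graph on the free group made of the copies of `U`. -/
def freeG : SimpleGraph (FreeGroup V) where
  Adj x y := ∃ g a b, U.Adj a b ∧ x = C g a ∧ y = C g b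
  symm := ⟨fun _ _ ⟨g, a, b, h, hx, hy⟩ => ⟨g, b, a, h.symm, hy, hx⟩⟩
  loopless := ⟨fun x ⟨g, a, b, h, hx, hy⟩ => by
    have h1 : (of a)⁻¹ * g = (of b)⁻¹ * g := hx.symm.trans hy
    have h2 := of_injective (inv_injective (mul_right_cancel h1))
    exact U.irrefl (h2 ▸ h)⟩

/-- The entry point in the copy with index `1`. -/
noncomputable def rho (x : FreeGroup V) : Option V :=
  x.toWord.getLast?.bind fun p => if p.2 then none else some p.1

theorem rho_inv_of (a : V) : rho (of a)⁻¹ = some a := by
  simp [rho, toWord_inv, invRev]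

theorem rho_mul (a : V) {g : FreeGroup V} (hg : g ≠ 1) : rho ((of a)⁻¹ * g) = rho g := by
  have h1 : ((of a)⁻¹ * g).toWord = reduce ((a, false) :: g.toWord) := by
    rw [toWord_mul, toWord_inv, toWord_of]
    rfl
  have h2 : g.toWord ≠ [] := fun h => hg (toWord_eq_nil_iff.1 h)
  unfold rho
  rw [h1, reduce.cons, reduce_toWord]
  cases hw : g.toWord with
  | nil => exact absurd hw h2
  | cons hd tl =>
    simp only
    split_ifs with h
    · obtain ⟨h3, h4⟩ := h
      cases tl with
      | nil =>
        have : hd.2 = true := by simpa using h4.symm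
        simp [this]
      | cons x t => simp [List.getLast?_cons_cons]
    · simp [List.getLast?_cons_cons]

/-- The entry point in the copy with index `g`. -/
noncomputable def rhog (g x : FreeGroup V) : Option V := rho (x * g⁻¹)

theorem rhog_C (g : FreeGroup V) (a : V) : rhog g (C g a) = some a := by
  simp [rhog, C, rho_inv_of]

theorem freeG_adj (g : FreeGroup V) {x y : FreeGroup V} (h : (freeG U).Adj x y) :
    rhog g x = rhog g y ∨ ∃ a b, U.Adj a b ∧ x = C g a ∧ y = C g b := by
  obtain ⟨g', a, b, hab, rfl, rfl⟩ := h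
  by_cases hg : g' * g⁻¹ = 1
  · right
    rw [mul_inv_eq_one] at hg
    subst hg
    exact ⟨a, b, hab, rfl, rfl⟩
  · left
    simp only [rhog, C, mul_assoc]
    rw [rho_mul a hg, rho_mul b hg]

theorem freeG_adj_C {g : FreeGroup V} {a b : V} (h : U.Adj a b) :
    (freeG U).Adj (C g a) (C g b) := ⟨g, a, b, h, rfl, rfl⟩

variable {U}

theorem firstEdge {g : FreeGroup V} {K : Set (FreeGroup V)} {v : FreeGroup V} (k : ℕ) :
    ∀ (x : FreeGroup V) (a : V), rhog g x = some a → W (freeG U) K k x v →
      rhog g v = some a ∨ ∃ b j, U.Adj a b ∧ j + 1 ≤ k ∧ W (freeG U) K j (C g b) v := by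
  induction k with
  | zero =>
    rintro x a hx ⟨rfl, -⟩
    exact Or.inl hx
  | succ k ih =>
    rintro x a hx ⟨-, y, hxy, hw⟩
    have hor : rhog g x = rhog g y ∨ ∃ a b, U.Adj a b ∧ x = C g a ∧ y = C g b := by
      rcases hxy with rfl | hxy
      · exact Or.inl rfl
      · exact freeG_adj U g hxy
    rcases hor with h | ⟨a', b, hab, hx', rfl⟩
    · rcases ih y a (h ▸ hx) hw with h1 | ⟨b, j, h1, h2, h3⟩
      · exact Or.inl h1
      · exact Or.inr ⟨b, j, h1, by omega, h3⟩
    · rw [hx', rhog_C, Option.some.injEq] at hx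
      subst hx
      exact Or.inr ⟨b, k, hab, le_rfl, hw⟩

theorem exitPoint {g : FreeGroup V} {K : Set (FreeGroup V)} {v : FreeGroup V} (k : ℕ) :
    ∀ a : V, W (freeG U) K k (C g a) v → ∃ c, rhog g v = some c ∧ ∃ k1 k2, k1 + k2 ≤ k ∧
      W U {z | C g z ∈ K} k1 a c ∧ W (freeG U) K k2 (C g c) v := by
  induction k using Nat.strong_induction_on with
  | _ k ih =>
    intro a hw
    rcases firstEdge k _ a (rhog_C g a) hw with h | ⟨b, j, hab, hj, hw'⟩
    · exact ⟨a, h, 0, k, by omega, ⟨rfl, hw.left⟩, hw⟩
    · obtain ⟨c, h1, k1, k2, h2, h3, h4⟩ := ih j (by omega) b hw'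
      exact ⟨c, h1, k1 + 1, k2, by omega, ⟨hw.left, b, Or.inr hab, h3⟩, h4⟩

theorem DHW_freeG (hd : DHW U Set.univ) : DHW (freeG U) Set.univ := by
  intro H _ u v m n
  revert u m
  induction n using Nat.strong_induction_on with
  | _ n ih =>
    intro u m hm hn
    cases n with
    | zero => exact ⟨hn.1, hm.left⟩
    | succ n =>
      obtain ⟨-, x, hux, hw⟩ := hn
      rcases hux with rfl | hux
      · exact (ih n (Nat.lt_succ_self n) u m hm hw).succ
      · obtain ⟨g, a, b, hab, rfl, rfl⟩ := hux
        obtain ⟨c, h1, k1, k2, h2, h3, h4⟩ := exitPoint n b hw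
        obtain ⟨c', h1', m1, m2, -, h3', h4'⟩ := exitPoint m a hm
        have hcc : c' = c := Option.some.inj (h1'.symm.trans h1)
        subst hcc
        have h5 : W U Set.univ (k1 + 1) a c' :=
          ⟨trivial, b, Or.inr hab, h3.sub (Set.subset_univ _)⟩
        have h6 := hd _ (Set.subset_univ _) _ _ _ _ h3' h5
        have h7 : W (freeG U) H (k1 + 1) (C g a) (C g c') :=
          h6.map (C g) (fun z hz => hz) fun x _ y _ hxy => Or.inr (freeG_adj_C U hxy)
        have h8 := ih k2 (by omega) (C g c') m2 h4' h4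
        exact (h7.trans h8).mono (by omega)

/-- The copy with index `1` is an induced subgraph. -/
noncomputable def embC : U ↪g freeG U where
  toFun := C 1
  inj' a b h := by
    simp only [C, mul_one] at h
    exact of_injective (inv_injective h)
  map_rel_iff' {a b} := by
    constructor
    · intro h
      change (freeG U).Adj (C 1 a) (C 1 b) at h
      rcases freeG_adj U 1 h with h1 | ⟨a', b', h1, h2, h3⟩
      · rw [rhog_C, rhog_C, Option.some.injEq] at h1
        exact absurd (h1 ▸ h) ((freeG U).irrefl)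
      · simp only [C, mul_one] at h2 h3
        have e1 := of_injective (inv_injective h2)
        have e2 := of_injective (inv_injective h3)
        rw [e1, e2]
        exact h1
    · exact fun h => freeG_adj_C U h

/-- Right translations. -/
noncomputable def rtrans (h : FreeGroup V) : freeG U ≃g freeG U where
  toEquiv := Equiv.mulRight h
  map_rel_iff' {x y} := by
    simp only [Equiv.coe_mulRight]
    constructor
    · rintro ⟨g, a, b, hab, hx, hy⟩
      refine ⟨g * h⁻¹, a, b, hab, ?_, ?_⟩
      · rw [C, ← mul_assoc, ← C, ← hx]; group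
      · rw [C, ← mul_assoc, ← C, ← hy]; group
    · rintro ⟨g, a, b, hab, rfl, rfl⟩
      exact ⟨g * h, a, b, hab, by rw [C, C, mul_assoc], by rw [C, C, mul_assoc]⟩

theorem freeG_transitive (x y : FreeGroup V) : ∃ f : freeG U ≃g freeG U, f x = y :=
  ⟨rtrans (x⁻¹ * y), by
    change x * (x⁻¹ * y) = y
    group⟩

end Pool.Agent.R893.DHG
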